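import Pool.Agent.Helper1.T1.Goals
import Pool.Agent.Helper97.Tate.All
import Pool.Agent.Helper40.Tate.LIN

/-!
PROJECT T1 (MP_d3128a_ag), the potential lemma (helper79).
-/

set_option autoImplicit false

noncomputable section

namespace Pool.Agent.Helper79.T1.POT

open Module Pool.Agent.Helper97 Pool.Agent.Helper97.Nag Pool.Agent.Helper98.UN Pool.Agent.Helper1.All
open Pool.Agent.Helper1.T1

open Pool.Agent.Helper97.Tate (OO KK SS cf iO evx evK all_EVC)

section descent

variable {F : Type} [Field F] [CharZero F]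

/-- independence over `ℚ` gives independence over `F` -/
theorem indF {b : ℕ} (M : Fin b → ℕ) (x y : Fin b → ℚ) (C : Finset (ℕ × ℤ)) (h : IndepC M x y C)
    (A : ℕ × ℤ → F)
    (hA : ∀ (i : Fin b) (α β : ℕ), α + β < M i →
      ∑ q ∈ C, A q * (((q.1.choose β : ℕ) : F) * ((y i : ℚ) : F) ^ (q.1 - β) *
        (((Ring.choose q.2 α : ℤ) : F) * ((x i : ℚ) : F) ^ q.2)) = 0) :
    ∀ q ∈ C, A q = 0 := by
  intro q hq
  by_contra hne
  obtain ⟨φ, hφ⟩ : ∃ φ : F →ₗ[ℚ] ℚ, φ (A q) ≠ 0 := by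
    by_contra hcon
    push Not at hcon
    exact hne ((Module.forall_dual_apply_eq_zero_iff ℚ (A q)).1 hcon)
  apply hφ
  refine h (fun q => φ (A q)) ?_ q hq
  intro i α β hαβ
  have h1 := congrArg φ (hA i α β hαβ)
  rw [map_sum, map_zero] at h1
  rw [← h1]
  apply Finset.sum_congr rfl
  intro q' _
  have h2 : A q' * (((q'.1.choose β : ℕ) : F) * ((y i : ℚ) : F) ^ (q'.1 - β) *
        (((Ring.choose q'.2 α : ℤ) : F) * ((x i : ℚ) : F) ^ q'.2)) =
      (((q'.1.choose β : ℕ) : ℚ) * y i ^ (q'.1 - β) *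
        (((Ring.choose q'.2 α : ℤ) : ℚ) * x i ^ q'.2)) • A q' := by
    rw [Algebra.smul_def, mul_comm]
    congr 1
    rw [eq_ratCast]
    push_cast
    ring
  rw [h2, map_smul, smul_eq_mul, mul_comm]

end descent

section arrays

variable {F : Type} [Field F]

theorem cf_sum {ι : Type} (s : Finset ι) (f : ι → SS F) (N n : ℤ) :
    cf (∑ i ∈ s, f i) N n = ∑ i ∈ s, cf (f i) N n := by
  classical
  unfold cf
  by_cases h : 0 ≤ N
  · simp only [if_pos h]
    induction s using Finset.induction_on with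
    | empty => simp
    | insert r s hr ih => rw [Finset.sum_insert hr, Finset.sum_insert hr, ← ih]; simp
  · simp only [if_neg h]
    simp

theorem cf_neg {f : SS F} {N n : ℤ} (h : cf f N n ≠ 0) : 0 ≤ N := by
  by_contra hcon
  exact h (by unfold cf; rw [if_neg hcon])

/-- the growth of a combination -/
theorem grow {ν : ℕ} (b : Fin ν → OO F) (B : Fin ν → SS F) (c a a' : ℕ)
    (hb : ∀ r, ∀ i < c, PowerSeries.coeff i (b r) = 0)
    (hB : ∀ r, ∀ N n : ℤ, cf (B r) N n ≠ 0 → (a : ℤ) * n ≤ N ∧ -((a' : ℤ) * n) ≤ N)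
    (N n : ℤ) (h : cf (∑ r, iO (b r) * B r) N n ≠ 0) :
    (c : ℤ) + a * n ≤ N ∧ (c : ℤ) - a' * n ≤ N := by
  have hN := cf_neg h
  rw [cf_sum] at h
  obtain ⟨r, -, hr⟩ := Finset.exists_ne_zero_of_sum_ne_zero h
  rw [Pool.Agent.Helper40.Tate.LIN.cf_iO_mul (b r) (B r) N n (N.toNat + 1) (by omega)] at hr
  obtain ⟨i, -, hi⟩ := Finset.exists_ne_zero_of_sum_ne_zero hr
  have h1 : c ≤ i := by
    by_contra hcon
    exact hi (by rw [hb r i (by omega), zero_mul])
  have h2 := hB r _ n (right_ne_zero_of_mul hi)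
  omega

/-- the leading coefficient of a combination -/
theorem lead {ν : ℕ} (b : Fin ν → OO F) (B : Fin ν → SS F) (c : ℕ)
    (hb : ∀ r, ∀ i < c, PowerSeries.coeff i (b r) = 0) (N0 : ℕ) (n : ℤ)
    (hB : ∀ r, ∀ N : ℤ, cf (B r) N n ≠ 0 → (N0 : ℤ) ≤ N) :
    cf (∑ r, iO (b r) * B r) ((c + N0 : ℕ) : ℤ) n =
      ∑ r, PowerSeries.coeff c (b r) * cf (B r) (N0 : ℤ) n := by
  rw [cf_sum]
  apply Finset.sum_congr rfl
  intro r _
  rw [Pool.Agent.Helper40.Tate.LIN.cf_iO_mul (b r) (B r) _ n (c + N0 + 1) (by push_cast; omega),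
    Finset.sum_eq_single c]
  · congr 2
    push_cast
    ring
  · intro i _ hi
    rcases lt_or_gt_of_ne hi with h | h
    · rw [hb r i h, zero_mul]
    · by_contra hcon
      have := hB r _ (right_ne_zero_of_mul hcon)
      push_cast at this
      omega
  · intro h
    exact absurd (Finset.mem_range.2 (by omega)) h

/-- the order of a nonzero vector -/
theorem ordv {ν : ℕ} (b : Fin ν → OO F) (h : ∃ r, b r ≠ 0) :
    ∃ c : ℕ, (∀ r, ∀ i < c, PowerSeries.coeff i (b r) = 0) ∧ ∃ r, PowerSeries.coeff c (b r) ≠ 0 := by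
  classical
  have hex : ∃ N : ℕ, ∃ r, PowerSeries.coeff N (b r) ≠ 0 := by
    obtain ⟨r, hr⟩ := h
    by_contra hcon
    push Not at hcon
    apply hr
    ext N
    rw [hcon N r, map_zero]
  refine ⟨Nat.find hex, fun r i hi => ?_, Nat.find_spec hex⟩
  by_contra hcon
  exact Nat.find_min hex hi ⟨r, hcon⟩

end arrays

section scale

variable {F : Type} [Field F]

theorem scale {lam : ℕ} {ν : ℕ → ℕ} (A : ∀ j : Fin lam, Fin (ν j) → KK F) :
    ∃ δ : OO F, δ ≠ 0 ∧ ∃ v : ∀ j : Fin lam, Fin (ν j) → OO F,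
      ∀ j r, algebraMap (OO F) (KK F) (v j r) = algebraMap (OO F) (KK F) δ * A j r := by
  obtain ⟨δ, hδ⟩ := IsLocalization.exist_integer_multiples_of_finite (nonZeroDivisors (OO F))
    (fun p : (Σ j : Fin lam, Fin (ν j)) => A p.1 p.2)
  refine ⟨δ, nonZeroDivisors.ne_zero δ.2, ?_⟩
  choose v hv using hδ
  refine ⟨fun j r => v ⟨j, r⟩, fun j r => ?_⟩
  rw [hv ⟨j, r⟩]
  exact Algebra.smul_def _ _

end scale

section main

variable {F : Type} [Field F]

/-- the relation over `OO F` -/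
theorem rel {b c lam : ℕ} {M : Fin b → ℕ} {ν : ℕ → ℕ} (g : Fin b → Fin c) (w : Fin b → F)
    (ux : Fin b → Fˣ) (T : Fin c → ℕ) (B : Fin c → ℕ → ℕ → SS F)
    (A : ∀ j : Fin lam, Fin (ν j) → KK F)
    (hA : A ∈ KerV M lam ν
      (fun i => algebraMap (OO F) (KK F) (PowerSeries.C (w i) * PowerSeries.X ^ T (g i)))
      (fun i j r => evK (ux i) (B (g i) j r)))
    (δ : OO F) (v : ∀ j : Fin lam, Fin (ν j) → OO F)
    (hv : ∀ j r, algebraMap (OO F) (KK F) (v j r) = algebraMap (OO F) (KK F) δ * A j r)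
    (i : Fin b) (α β : ℕ) (hαβ : α + β < M i) :
    ∑ j : Fin lam, (PowerSeries.C (w i) * PowerSeries.X ^ T (g i)) ^ (j : ℕ) *
      ((j : ℕ).choose β : OO F) * PowerSeries.coeff α
        (evx (ux i) (∑ r : Fin (ν j), iO (v j r) * B (g i) j r)) = 0 := by
  apply IsFractionRing.injective (OO F) (KK F)
  rw [map_zero, map_sum]
  have h1 := hA i α β hαβ
  have h2 := congrArg (fun z => algebraMap (OO F) (KK F) δ * z) h1
  simp only [mul_zero] at h2
  rw [← h2, Finset.mul_sum]
  apply Finset.sum_congr rfl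
  intro j _
  have h3 : algebraMap (OO F) (KK F) (PowerSeries.coeff α
        (evx (ux i) (∑ r : Fin (ν j), iO (v j r) * B (g i) j r))) =
      algebraMap (OO F) (KK F) δ *
        ∑ r : Fin (ν j), A j r * PowerSeries.coeff α (evK (ux i) (B (g i) j r)) := by
    rw [← (all_EVC F (ux i) _ 0 α).2.1, map_sum, map_sum, Finset.mul_sum]
    apply Finset.sum_congr rfl
    intro r _
    rw [map_mul, (all_EVC F (ux i) (B (g i) j r) 0 α).2.2, PowerSeries.coeff_C_mul, hv j r]
    ring
  rw [map_mul, map_mul, map_pow, map_natCast, h3]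
  ring

/-- the coefficient of `q ^ N` in the relation -/
theorem relN {lam : ℕ} (w : F) (ux : Fˣ) (T β α N : ℕ) (f : Fin lam → SS F)
    (h : ∑ j : Fin lam, (PowerSeries.C w * PowerSeries.X ^ T) ^ (j : ℕ) *
      ((j : ℕ).choose β : OO F) * PowerSeries.coeff α (evx ux (f j)) = 0) :
    ∑ j : Fin lam, (w ^ (j : ℕ) * ((j : ℕ).choose β : F)) *
      (if T * (j : ℕ) ≤ N then (PowerSeries.coeff (N - T * j) (f j)).coeff else 0).sum
        (fun n a => a * (((ux ^ n : Fˣ) : F) * ((Ring.choose n α : ℤ) : F))) = 0 := by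
  have h1 := congrArg (PowerSeries.coeff N) h
  rw [map_sum, map_zero] at h1
  rw [← h1]
  apply Finset.sum_congr rfl
  intro j _
  have h2 : (PowerSeries.C w * PowerSeries.X ^ T) ^ (j : ℕ) * ((j : ℕ).choose β : OO F) *
      PowerSeries.coeff α (evx ux (f j)) =
      PowerSeries.C (w ^ (j : ℕ) * ((j : ℕ).choose β : F)) *
        (PowerSeries.X ^ (T * (j : ℕ)) * PowerSeries.coeff α (evx ux (f j))) := by
    rw [mul_pow, ← pow_mul, map_mul, map_pow, map_natCast]
    ring
  rw [h2, PowerSeries.coeff_C_mul, PowerSeries.coeff_X_pow_mul']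
  congr 1
  split_ifs with h3
  · rw [(all_EVC F ux (f j) (N - T * j) α).1]
  · rfl

/-- the relation as a relation between lattice points -/
theorem toC {lam : ℕ} (P : Fin lam → ℤ →₀ F) (w : F) (hw : w ≠ 0) (β : ℕ) (G : ℤ → F)
    (C : Finset (ℕ × ℤ))
    (hC : C = Finset.univ.biUnion fun j : Fin lam => (P j).support.image fun n => ((j : ℕ), n))
    (A : ℕ × ℤ → F) (hA : ∀ (j : Fin lam) (n : ℤ), A ((j : ℕ), n) = P j n)
    (h : ∑ j : Fin lam, (w ^ (j : ℕ) * ((j : ℕ).choose β : F)) *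
      (P j).sum (fun n a => a * G n) = 0) :
    ∑ q ∈ C, A q * (((q.1.choose β : ℕ) : F) * w ^ (q.1 - β) * G q.2) = 0 := by
  rw [hC, Finset.sum_biUnion]
  · have h1 : w ^ β * ∑ j : Fin lam, ∑ q ∈ (P j).support.image (fun n => ((j : ℕ), n)),
        A q * (((q.1.choose β : ℕ) : F) * w ^ (q.1 - β) * G q.2) = 0 := by
      rw [← h, Finset.mul_sum]
      apply Finset.sum_congr rfl
      intro j _
      rw [Finset.sum_image (by
        intro n _ n' _ hnn
        simpa using hnn)]
      rw [Finsupp.sum, Finset.mul_sum, Finset.mul_sum]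
      apply Finset.sum_congr rfl
      intro n _
      rw [hA j n]
      simp only
      by_cases hj : β ≤ (j : ℕ)
      · have h2 : w ^ (j : ℕ) = w ^ β * w ^ ((j : ℕ) - β) := by
          rw [← pow_add]
          congr 1
          omega
        rw [h2]
        ring
      · rw [Nat.choose_eq_zero_of_lt (by omega)]
        simp
    exact (mul_eq_zero.1 h1).resolve_left (pow_ne_zero _ hw)
  · intro j _ j' _ hjj
    rw [Function.onFun, Finset.disjoint_left]
    intro q hq hq'
    obtain ⟨n, -, rfl⟩ := Finset.mem_image.1 hq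
    obtain ⟨n', -, h2⟩ := Finset.mem_image.1 hq'
    simp only [Prod.mk.injEq] at h2
    exact hjj (Fin.ext h2.1.symm)

end main

/-- POT -/
theorem t : S_POT := by
  intro F _ _ b c k d M g u w ux a a' T ν B hk hc hu hw hux hpos hgr hbz hap hcell
  rw [eq_bot_iff]
  intro A hA
  rw [Submodule.mem_bot]
  by_contra hne
  obtain ⟨δ, hδ, v, hv⟩ := scale A
  have hlamj : ∀ j : Fin (d / k + 1), k * (j : ℕ) ≤ d := by
    intro j
    have h1 : (j : ℕ) ≤ d / k := Nat.lt_succ_iff.1 j.2
    calc k * (j : ℕ) ≤ k * (d / k) := Nat.mul_le_mul_left _ h1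
      _ ≤ d := Nat.mul_div_le d k
  set f : Fin c → Fin (d / k + 1) → SS F := fun l j => ∑ r : Fin (ν j), iO (v j r) * B l j r with hf
  -- some level is not zero
  obtain ⟨j1, hj1⟩ : ∃ j : Fin (d / k + 1), ∃ r, v j r ≠ 0 := by
    by_contra hcon
    push Not at hcon
    apply hne
    funext j r
    have h1 := hv j r
    rw [hcon j r, map_zero] at h1
    have h2 : algebraMap (OO F) (KK F) δ ≠ 0 := by
      rw [Ne, map_eq_zero_iff _ (IsFractionRing.injective (OO F) (KK F))]
      exact hδ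
    exact (mul_eq_zero.1 h1.symm).resolve_left h2
  -- the levels with `k j < d`
  have hlow : ∀ j : Fin (d / k + 1), (∃ r, v j r ≠ 0) → k * (j : ℕ) < d → ∃ cj : ℕ,
      (∀ (l : Fin c) (N n : ℤ), cf (f l j) N n ≠ 0 →
        (cj : ℤ) + a l * n ≤ N ∧ (cj : ℤ) - a' l * n ≤ N) ∧
      ∃ (l : Fin c) (N n : ℤ), cf (f l j) N n ≠ 0 ∧
        (k : ℤ) * N - ((d : ℤ) - k * j) * T l < k * cj := by
    intro j hj hjd
    obtain ⟨cj, hc1, hc2⟩ := ordv (v j) hj
    refine ⟨cj, ?_, ?_⟩
    · intro l N n h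
      exact grow (v j) (fun r => B l j r) cj (a l) (a' l) hc1 (fun r => hgr l j r r.2) N n h
    · have hv0 : (fun r => PowerSeries.coeff cj (v j r)) ≠ 0 := by
        obtain ⟨r, hr⟩ := hc2
        intro h0
        exact hr (congrFun h0 r)
      obtain ⟨l, n, h | h⟩ := hbz j hjd _ hv0
      · refine ⟨l, ((cj + a l * n : ℕ) : ℤ), n, ?_, ?_⟩
        · rw [hf]
          simp only
          rw [lead (v j) (fun r => B l j r) cj hc1 (a l * n) (n : ℤ) (by
            intro r N hN
            have := (hgr l j r r.2 N n hN).1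
            push_cast
            exact this)]
          push_cast
          exact h.2
        · push_cast
          nlinarith [h.1]
      · refine ⟨l, ((cj + a' l * n : ℕ) : ℤ), -(n : ℤ), ?_, ?_⟩
        · rw [hf]
          simp only
          rw [lead (v j) (fun r => B l j r) cj hc1 (a' l * n) (-(n : ℤ)) (by
            intro r N hN
            have := (hgr l j r r.2 N (-(n : ℤ)) hN).2
            push_cast
            linarith)]
          push_cast
          exact h.2
        · push_cast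
          nlinarith [h.1]
  -- the apex
  have hapx : ∀ j : Fin (d / k + 1), k * (j : ℕ) = d → ∀ (l : Fin c) (N n : ℤ),
      cf (f l j) N n ≠ 0 → n = 0 := by
    intro j hj l N n h
    by_contra hn
    apply h
    rw [hf]
    simp only
    rw [cf_sum]
    apply Finset.sum_eq_zero
    intro r _
    have hr : (r : ℕ) = 0 := by
      have := (hap j hj).1
      have := r.2
      omega
    have hB : B l j r = 1 := by
      rw [hr]
      exact (hap j hj).2 l
    rw [hB, mul_one]
    unfold cf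
    split_ifs
    · unfold iO
      rw [PowerSeries.coeff_map, LaurentPolynomial.C_apply]
      rw [if_neg]
      exact hn
    · rfl
  have hapx2 : ∀ j : Fin (d / k + 1), k * (j : ℕ) = d → (∃ r, v j r ≠ 0) →
      ∀ l : Fin c, ∃ N n : ℤ, cf (f l j) N n ≠ 0 := by
    intro j hj hjv l
    obtain ⟨cj, hc1, r0, hc2⟩ := ordv (v j) hjv
    have hr : ∀ r : Fin (ν j), (r : ℕ) = 0 := by
      intro r
      have := (hap j hj).1
      have := r.2
      omega
    have hB : ∀ r : Fin (ν j), B l j r = 1 := by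
      intro r
      rw [hr r]
      exact (hap j hj).2 l
    refine ⟨((cj + 0 : ℕ) : ℤ), 0, ?_⟩
    rw [hf]
    simp only
    rw [lead (v j) (fun r => B l j r) cj hc1 0 0 (by
      intro r N hN
      exact_mod_cast cf_neg hN)]
    rw [Finset.sum_eq_single r0]
    · rw [hB r0]
      have h1 : cf (1 : SS F) ((0 : ℕ) : ℤ) 0 = 1 := by
        unfold cf
        rw [if_pos (by simp)]
        simp only [Nat.cast_zero, Int.toNat_zero, PowerSeries.coeff_zero_eq_constantCoeff, map_one]
        exact Finsupp.single_eq_same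
      rw [h1, mul_one]
      exact hc2
    · intro r _ hr'
      exact absurd (Fin.ext ((hr r).trans (hr r0).symm)) hr'
    · intro h
      exact absurd (Finset.mem_univ _) h
  -- the least potential
  let P : ℤ → Prop := fun z => ∃ (j : Fin (d / k + 1)) (l : Fin c) (N n : ℤ),
    cf (f l j) N n ≠ 0 ∧ z = (k : ℤ) * N - ((d : ℤ) - k * j) * T l
  have hlam' : ∀ j : Fin (d / k + 1), (k : ℤ) * (j : ℕ) ≤ d := fun j => by exact_mod_cast hlamj j
  have hPb : ∃ z0 : ℤ, ∀ z, P z → z0 ≤ z := by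
    refine ⟨-((d : ℤ) * ∑ l, (T l : ℤ)), ?_⟩
    rintro z ⟨j, l, N, n, h, rfl⟩
    have h1 := cf_neg h
    have h2 : (T l : ℤ) ≤ ∑ l, (T l : ℤ) :=
      Finset.single_le_sum (f := fun l => (T l : ℤ)) (fun l _ => by positivity) (Finset.mem_univ l)
    have h3 := hlam' j
    have h4 : ((d : ℤ) - k * j) * T l ≤ d * ∑ l, (T l : ℤ) := by
      apply mul_le_mul _ h2 (by positivity) (by positivity)
      have : (0 : ℤ) ≤ k * (j : ℕ) := by positivity
      linarith
    have h5 : 0 ≤ (k : ℤ) * N := by positivity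
    linarith
  have hPe : ∃ z, P z := by
    rcases lt_or_eq_of_le (hlamj j1) with h | h
    · obtain ⟨cj, -, l, N, n, h1, -⟩ := hlow j1 hj1 h
      exact ⟨_, j1, l, N, n, h1, rfl⟩
    · obtain ⟨N, n, h1⟩ := hapx2 j1 h hj1 ⟨0, hc⟩
      exact ⟨_, j1, ⟨0, hc⟩, N, n, h1, rfl⟩
  obtain ⟨z0, ⟨j0, l0, N0, n0, hne0, hz0⟩, hmin⟩ := Int.exists_least_of_bdd hPb hPe
  have hv0 : ∀ (j : Fin (d / k + 1)) (l : Fin c) (N n : ℤ), cf (f l j) N n ≠ 0 →
      ∃ r, v j r ≠ 0 := by
    intro j l N n h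
    by_contra hcon
    push Not at hcon
    apply h
    rw [hf]
    simp only
    rw [cf_sum]
    apply Finset.sum_eq_zero
    intro r _
    rw [hcon r, map_zero, zero_mul]
    unfold cf
    split_ifs <;> simp
  -- the region
  have hreg : ∀ (j : Fin (d / k + 1)) (N n : ℤ), cf (f l0 j) N n ≠ 0 →
      (k : ℤ) * N - ((d : ℤ) - k * j) * T l0 = z0 → InW k d (a l0) (a' l0) (T l0) j n := by
    intro j N n h hz
    rcases lt_or_eq_of_le (hlamj j) with hj | hj
    · left
      obtain ⟨cj, h1, l, N', n', h2, h3⟩ := hlow j (hv0 j l0 N n h) hj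
      have h4 := hmin _ ⟨j, l, N', n', h2, rfl⟩
      have h5 := h1 l0 N n h
      have hk' : (1 : ℤ) ≤ k := by exact_mod_cast hk
      refine ⟨hj, ?_, ?_⟩
      · nlinarith [h5.1]
      · nlinarith [h5.2]
    · right
      exact ⟨hj, hapx j hj l0 N n h⟩
  -- the relation
  have hN0 := cf_neg hne0
  set Ns : ℕ := N0.toNat + T l0 * j0 with hNs
  have hNs' : (Ns : ℤ) = N0 + T l0 * (j0 : ℕ) := by
    rw [hNs]
    push_cast
    rw [Int.toNat_of_nonneg hN0]
  set Q : Fin (d / k + 1) → ℤ →₀ F := fun j =>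
    if T l0 * (j : ℕ) ≤ Ns then (PowerSeries.coeff (Ns - T l0 * j) (f l0 j)).coeff else 0 with hQ
  have hQc : ∀ (j : Fin (d / k + 1)) (n : ℤ), Q j n = cf (f l0 j) ((Ns : ℤ) - T l0 * (j : ℕ)) n := by
    intro j n
    rw [hQ]
    simp only
    unfold cf
    by_cases h : T l0 * (j : ℕ) ≤ Ns
    · rw [if_pos h, if_pos (by
        have : ((T l0 * (j : ℕ) : ℕ) : ℤ) ≤ Ns := by exact_mod_cast h
        push_cast at this
        linarith)]
      congr 3
      have : ((Ns - T l0 * (j : ℕ) : ℕ) : ℤ) = (Ns : ℤ) - T l0 * (j : ℕ) := by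
        push_cast [Nat.cast_sub h]
        ring
      rw [← this, Int.toNat_natCast]
    · rw [if_neg h, if_neg (by
        have : ((Ns : ℕ) : ℤ) < ((T l0 * (j : ℕ) : ℕ) : ℤ) := by exact_mod_cast (not_le.1 h)
        push_cast at this
        linarith)]
      rfl
  classical
  set C : Finset (ℕ × ℤ) := Finset.univ.biUnion fun j : Fin (d / k + 1) =>
    (Q j).support.image fun n => ((j : ℕ), n) with hCdef
  let AA : ℕ × ℤ → F := fun q => if h : q.1 < d / k + 1 then Q ⟨q.1, h⟩ q.2 else 0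
  have hAA : ∀ (j : Fin (d / k + 1)) (n : ℤ), AA ((j : ℕ), n) = Q j n := by
    intro j n
    simp only [AA]
    rw [dif_pos j.2]
  have hCreg : ∀ q ∈ C, InW k d (a l0) (a' l0) (T l0) q.1 q.2 := by
    intro q hq
    rw [hCdef, Finset.mem_biUnion] at hq
    obtain ⟨j, -, hq⟩ := hq
    obtain ⟨n, hn, rfl⟩ := Finset.mem_image.1 hq
    rw [Finsupp.mem_support_iff, hQc j n] at hn
    refine hreg j _ n hn ?_
    rw [hz0, hNs']
    ring
  have hind := indF _ u w C (hcell l0 C hCreg) AA (by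
    intro i α β hαβ
    by_cases hi : g i = l0
    · simp only [if_pos hi] at hαβ
      have h1 := rel g (fun i => ((w i : ℚ) : F)) ux T B A hA δ v hv i α β hαβ
      rw [hi] at h1
      have h2 := relN ((w i : ℚ) : F) (ux i) (T l0) β α Ns (f l0) h1
      have h3 := toC Q ((w i : ℚ) : F) (by exact_mod_cast (hw i).ne') β
        (fun n => ((Ring.choose n α : ℤ) : F) * ((u i : ℚ) : F) ^ n) C hCdef AA hAA (by
          rw [← h2]
          apply Finset.sum_congr rfl
          intro j _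
          congr 1
          apply Finsupp.sum_congr
          intro n _
          rw [Units.val_zpow_eq_zpow_val, hux i]
          ring)
      exact h3
    · simp only [if_neg hi] at hαβ
      omega)
  have hmem : ((j0 : ℕ), n0) ∈ C := by
    rw [hCdef, Finset.mem_biUnion]
    refine ⟨j0, Finset.mem_univ _, Finset.mem_image.2 ⟨n0, ?_, rfl⟩⟩
    rw [Finsupp.mem_support_iff, hQc j0 n0, hNs']
    have : N0 + T l0 * (j0 : ℕ) - T l0 * (j0 : ℕ) = N0 := by ring
    rw [this]
    exact hne0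
  have hfin := hind _ hmem
  rw [hAA j0 n0, hQc j0 n0, hNs'] at hfin
  have : N0 + T l0 * (j0 : ℕ) - T l0 * (j0 : ℕ) = N0 := by ring
  rw [this] at hfin
  exact hne0 hfin

end Pool.Agent.Helper79.T1.POT

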