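import Pool.Agent.Helper1.T1.Goals4
import Pool.Agent.Helper79.T1.POT

/-!
PROJECT T1 (MP_d3128a_ag), the potential lemma, regular side (helper79).
-/

set_option autoImplicit false

noncomputable section

namespace Pool.Agent.Helper79.T1.POTR

open Module Pool.Agent.Helper97 Pool.Agent.Helper97.Nag Pool.Agent.Helper98.UN Pool.Agent.Helper1.All
open Pool.Agent.Helper1.T1

open Pool.Agent.Helper97.Tate (OO KK SS cf iO evx evK ser all_EVC)

open Pool.Agent.Helper79.T1.POT (indF cf_sum cf_neg grow lead ordv scale rel relN toC)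

section lin

variable {K : Type} [Field K]

/-- a subspace cut out by few conditions -/
theorem cut {ν : ℕ} {ι : Type} (s : Finset ι) (L : ι → (Fin ν → K) →ₗ[K] K) :
    ∃ V : Submodule K (Fin ν → K), ν ≤ finrank K V + s.card ∧ ∀ v ∈ V, ∀ p ∈ s, L p v = 0 := by
  let Φ : (Fin ν → K) →ₗ[K] (s → K) := LinearMap.pi fun p => L p
  refine ⟨LinearMap.ker Φ, ?_, ?_⟩
  · have h1 := LinearMap.finrank_range_add_finrank_ker Φ
    have h2 : finrank K (LinearMap.range Φ) ≤ s.card := by
      refine (Submodule.finrank_le _).trans ?_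
      simp
    have h3 : finrank K (Fin ν → K) = ν := by simp
    omega
  · intro v hv p hp
    exact congrFun (LinearMap.mem_ker.1 hv) ⟨p, hp⟩

/-- the product of subspaces -/
theorem prodV {lam : ℕ} (ν : ℕ → ℕ) (V : ∀ j : Fin lam, Submodule K (Fin (ν j) → K)) :
    ∃ W : Submodule K (∀ j : Fin lam, Fin (ν j) → K),
      finrank K W = ∑ j, finrank K (V j) ∧ ∀ v ∈ W, ∀ j, v j ∈ V j := by
  let Φ : (∀ j : Fin lam, V j) →ₗ[K] (∀ j : Fin lam, Fin (ν j) → K) :=
    LinearMap.pi fun j => (V j).subtype ∘ₗ LinearMap.proj j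
  refine ⟨LinearMap.range Φ, ?_, ?_⟩
  · rw [LinearMap.finrank_range_of_inj, Module.finrank_pi_fintype]
    intro x y hxy
    funext j
    exact Subtype.ext (congrFun hxy j)
  · rintro _ ⟨x, rfl⟩ j
    exact (x j).2

end lin

section series

variable {F : Type} [Field F]

theorem cf_ser (b : OO F) (f : SS F) (N : ℕ) (n : ℤ) :
    cf (iO b * f) N n = PowerSeries.coeff N (b * ser f n) := by
  rw [Pool.Agent.Helper40.Tate.LIN.cf_iO_mul b f N n (N + 1) (by omega), PowerSeries.coeff_mul,
    Finset.Nat.sum_antidiagonal_eq_sum_range_succ_mk]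
  apply Finset.sum_congr rfl
  intro i hi
  have hi' : i ≤ N := Nat.lt_succ_iff.1 (Finset.mem_range.1 hi)
  unfold ser
  rw [PowerSeries.coeff_mk]
  simp only
  congr 2
  push_cast [Nat.cast_sub hi']
  ring

/-- if the `n`-th series of a combination is zero, its coefficients are zero -/
theorem exc {ν : ℕ} (b : Fin ν → OO F) (B : Fin ν → SS F) (n : ℤ)
    (h : ∑ r, b r * ser (B r) n = 0) (N : ℤ) : cf (∑ r, iO (b r) * B r) N n = 0 := by
  by_cases hN : 0 ≤ N
  · obtain ⟨N, rfl⟩ := Int.eq_ofNat_of_zero_le hN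
    rw [cf_sum]
    have h1 := congrArg (PowerSeries.coeff N) h
    rw [map_sum, map_zero] at h1
    rw [← h1]
    apply Finset.sum_congr rfl
    intro r _
    exact cf_ser (b r) (B r) N n
  · unfold cf
    rw [if_neg hN]

end series

/-- the potential argument -/
theorem pot (F : Type) [Field F] [CharZero F] (b c k d : ℕ) (M : Fin b → ℕ)
    (g : Fin b → Fin c) (u w : Fin b → ℚ) (ux : Fin b → Fˣ) (a a' T : Fin c → ℕ) (ν : ℕ → ℕ)
    (B : Fin c → ℕ → ℕ → SS F) (S : Fin c → Finset (ℕ × ℤ)) (hk : 3 ≤ k)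
    (hw : ∀ i, 0 < w i) (hux : ∀ i, ((ux i : Fˣ) : F) = (u i : F))
    (hgr : ∀ (l : Fin c) (j r : ℕ), r < ν j → ∀ N n : ℤ, cf (B l j r) N n ≠ 0 →
      (a l : ℤ) * n ≤ N ∧ -((a' l : ℤ) * n) ≤ N)
    (hS : ∀ l, ∀ s ∈ S l, InR k d (a l) (a' l) (T l) s.1 s.2)
    (hind : ∀ l, IndepC (fun i => if g i = l then M i else 0) u w (S l))
    (A : ∀ j : Fin (d / k + 1), Fin (ν j) → KK F)
    (hA : A ∈ KerV M (d / k + 1) ν
      (fun i => algebraMap (OO F) (KK F) (PowerSeries.C ((w i : ℚ) : F) * PowerSeries.X ^ T (g i)))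
      (fun i j r => evK (ux i) (B (g i) j r)))
    (hbad : ∀ j : Fin (d / k + 1), ¬ k * (j : ℕ) + k ≤ d + 2 → A j = 0)
    (hgood : ∀ j : Fin (d / k + 1), k * (j : ℕ) + k ≤ d + 2 → ∃ Z : Finset (Fin c × ℤ),
      (∀ (l : Fin c) (n : ℤ), InR k d (a l) (a' l) (T l) j n → (l, n) ∈ Z) ∧
      (∀ v : Fin (ν j) → F, (∀ p ∈ Z, ∑ r : Fin (ν j), v r *
        ec (a p.1) (a' p.1) (B p.1 j r) p.2 = 0) → v = 0) ∧
      ∀ p ∈ Z, ((j : ℕ), p.2) ∉ S p.1 →
        ∑ r : Fin (ν j), A j r * algebraMap (OO F) (KK F) (ser (B p.1 j r) p.2) = 0) :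
    A = 0 := by
  by_contra hne
  obtain ⟨δ, hδ, v, hv⟩ := scale A
  have hinj := IsFractionRing.injective (OO F) (KK F)
  set f : Fin c → Fin (d / k + 1) → SS F := fun l j => ∑ r : Fin (ν j), iO (v j r) * B l j r with hf
  -- some level is not zero
  obtain ⟨j1, hj1⟩ : ∃ j : Fin (d / k + 1), ∃ r, v j r ≠ 0 := by
    by_contra hcon
    push Not at hcon
    apply hne
    funext j r
    have h1 := hv j r
    rw [hcon j r, map_zero] at h1
    have h2 : algebraMap (OO F) (KK F) δ ≠ 0 := by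
      rw [Ne, map_eq_zero_iff _ hinj]
      exact hδ
    exact (mul_eq_zero.1 h1.symm).resolve_left h2
  have hgd : ∀ j : Fin (d / k + 1), (∃ r, v j r ≠ 0) → k * (j : ℕ) + k ≤ d + 2 := by
    rintro j ⟨r, hr⟩
    by_contra hcon
    apply hr
    have h1 := hv j r
    rw [hbad j hcon] at h1
    simp only [Pi.zero_apply, mul_zero] at h1
    exact (map_eq_zero_iff _ hinj).1 h1
  -- the excluded positions
  have hex : ∀ (j : Fin (d / k + 1)) (l : Fin c) (n : ℤ),
      ∑ r : Fin (ν j), A j r * algebraMap (OO F) (KK F) (ser (B l j r) n) = 0 →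
      ∀ N : ℤ, cf (f l j) N n = 0 := by
    intro j l n h N
    refine exc (v j) (fun r => B l j r) n ?_ N
    apply hinj
    rw [map_zero, map_sum]
    have h1 := congrArg (fun z => algebraMap (OO F) (KK F) δ * z) h
    simp only [mul_zero] at h1
    rw [← h1, Finset.mul_sum]
    apply Finset.sum_congr rfl
    intro r _
    rw [map_mul, hv j r]
    ring
  -- the levels
  have hlow : ∀ j : Fin (d / k + 1), (∃ r, v j r ≠ 0) → ∃ cj : ℕ,
      (∀ (l : Fin c) (N n : ℤ), cf (f l j) N n ≠ 0 →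
        (cj : ℤ) + a l * n ≤ N ∧ (cj : ℤ) - a' l * n ≤ N) ∧
      ∃ (l : Fin c) (N n : ℤ), cf (f l j) N n ≠ 0 ∧
        (k : ℤ) * N - ((d : ℤ) + 3 - k - k * j) * T l < k * cj := by
    intro j hj
    obtain ⟨cj, hc1, hc2⟩ := ordv (v j) hj
    refine ⟨cj, ?_, ?_⟩
    · intro l N n h
      exact grow (v j) (fun r => B l j r) cj (a l) (a' l) hc1 (fun r => hgr l j r r.2) N n h
    · obtain ⟨Z, hZ1, hZ2, hZ3⟩ := hgood j (hgd j hj)
      have hv0 : (fun r => PowerSeries.coeff cj (v j r)) ≠ 0 := by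
        obtain ⟨r, hr⟩ := hc2
        intro h0
        exact hr (congrFun h0 r)
      obtain ⟨p, hpZ, hp⟩ : ∃ p ∈ Z, ∑ r : Fin (ν j), PowerSeries.coeff cj (v j r) *
          ec (a p.1) (a' p.1) (B p.1 j r) p.2 ≠ 0 := by
        by_contra hcon
        push Not at hcon
        exact hv0 (hZ2 _ hcon)
      obtain ⟨l, n⟩ := p
      simp only at hp hpZ
      by_cases hn : 0 ≤ n
      · obtain ⟨n, rfl⟩ := Int.eq_ofNat_of_zero_le hn
        have h1 : cf (f l j) ((cj + a l * n : ℕ) : ℤ) n ≠ 0 := by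
          rw [hf]
          simp only
          rw [lead (v j) (fun r => B l j r) cj hc1 (a l * n) (n : ℤ) (by
            intro r N hN
            have := (hgr l j r r.2 N n hN).1
            push_cast
            exact this)]
          unfold ec at hp
          simp only [if_pos hn] at hp
          push_cast
          exact hp
        have h2 : ((j : ℕ), (n : ℤ)) ∈ S l := by
          by_contra hcon
          exact h1 (hex j l n (hZ3 (l, (n : ℤ)) hpZ hcon) _)
        have h3 := hS l _ h2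
        refine ⟨l, _, _, h1, ?_⟩
        obtain ⟨-, h4, -⟩ := h3
        simp only at h4
        push_cast
        nlinarith [h4]
      · obtain ⟨m, hm⟩ : ∃ m : ℕ, n = -(m : ℤ) := ⟨n.natAbs, by omega⟩
        subst hm
        have h1 : cf (f l j) ((cj + a' l * m : ℕ) : ℤ) (-(m : ℤ)) ≠ 0 := by
          rw [hf]
          simp only
          rw [lead (v j) (fun r => B l j r) cj hc1 (a' l * m) (-(m : ℤ)) (by
            intro r N hN
            have := (hgr l j r r.2 N (-(m : ℤ)) hN).2
            push_cast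
            linarith)]
          unfold ec at hp
          simp only [if_neg hn] at hp
          push_cast
          have h5 : -((a' l : ℤ) * -(m : ℤ)) = (a' l : ℤ) * m := by ring
          rw [h5] at hp
          exact hp
        have h2 : ((j : ℕ), (-(m : ℤ))) ∈ S l := by
          by_contra hcon
          exact h1 (hex j l _ (hZ3 (l, (-(m : ℤ))) hpZ hcon) _)
        have h3 := hS l _ h2
        refine ⟨l, _, _, h1, ?_⟩
        obtain ⟨-, -, h4⟩ := h3
        simp only at h4
        push_cast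
        nlinarith [h4]
  -- the least potential
  let P : ℤ → Prop := fun z => ∃ (j : Fin (d / k + 1)) (l : Fin c) (N n : ℤ),
    cf (f l j) N n ≠ 0 ∧ z = (k : ℤ) * N - ((d : ℤ) + 3 - k - k * j) * T l
  have hv0 : ∀ (j : Fin (d / k + 1)) (l : Fin c) (N n : ℤ), cf (f l j) N n ≠ 0 →
      ∃ r, v j r ≠ 0 := by
    intro j l N n h
    by_contra hcon
    push Not at hcon
    apply h
    rw [hf]
    simp only
    rw [cf_sum]
    apply Finset.sum_eq_zero
    intro r _
    rw [hcon r, map_zero, zero_mul]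
    unfold cf
    split_ifs <;> simp
  have hPb : ∃ z0 : ℤ, ∀ z, P z → z0 ≤ z := by
    refine ⟨-(((d : ℤ) + 3) * ∑ l, (T l : ℤ)), ?_⟩
    rintro z ⟨j, l, N, n, h, rfl⟩
    have h1 := cf_neg h
    have h2 : (T l : ℤ) ≤ ∑ l, (T l : ℤ) :=
      Finset.single_le_sum (f := fun l => (T l : ℤ)) (fun l _ => by positivity) (Finset.mem_univ l)
    have h4 : ((d : ℤ) + 3 - k - k * j) * T l ≤ ((d : ℤ) + 3) * ∑ l, (T l : ℤ) := by
      apply mul_le_mul _ h2 (by positivity) (by positivity)
      have : (0 : ℤ) ≤ k * (j : ℕ) := by positivity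
      linarith
    have h5 : 0 ≤ (k : ℤ) * N := by positivity
    linarith
  have hPe : ∃ z, P z := by
    obtain ⟨cj, -, l, N, n, h1, -⟩ := hlow j1 hj1
    exact ⟨_, j1, l, N, n, h1, rfl⟩
  obtain ⟨z0, ⟨j0, l0, N0, n0, hne0, hz0⟩, hmin⟩ := Int.exists_least_of_bdd hPb hPe
  -- the region
  have hreg : ∀ (j : Fin (d / k + 1)) (N n : ℤ), cf (f l0 j) N n ≠ 0 →
      (k : ℤ) * N - ((d : ℤ) + 3 - k - k * j) * T l0 = z0 → ((j : ℕ), n) ∈ S l0 := by
    intro j N n h hz
    have hjv := hv0 j l0 N n h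
    have hjg := hgd j hjv
    have hreg' : InR k d (a l0) (a' l0) (T l0) j n := by
      obtain ⟨cj, h1, l, N', n', h2, h3⟩ := hlow j hjv
      have h4 := hmin _ ⟨j, l, N', n', h2, rfl⟩
      have h5 := h1 l0 N n h
      have hk' : (1 : ℤ) ≤ k := by
        have : 1 ≤ k := by omega
        exact_mod_cast this
      refine ⟨hjg, ?_, ?_⟩
      · nlinarith [h5.1]
      · nlinarith [h5.2]
    obtain ⟨Z, hZ1, hZ2, hZ3⟩ := hgood j hjg
    by_contra hcon
    exact h (hex j l0 n (hZ3 (l0, n) (hZ1 l0 n hreg') hcon) N)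
  -- the relation
  have hN0 := cf_neg hne0
  set Ns : ℕ := N0.toNat + T l0 * j0 with hNs
  have hNs' : (Ns : ℤ) = N0 + T l0 * (j0 : ℕ) := by
    rw [hNs]
    push_cast
    rw [Int.toNat_of_nonneg hN0]
  set Q : Fin (d / k + 1) → ℤ →₀ F := fun j =>
    if T l0 * (j : ℕ) ≤ Ns then (PowerSeries.coeff (Ns - T l0 * j) (f l0 j)).coeff else 0 with hQ
  have hQc : ∀ (j : Fin (d / k + 1)) (n : ℤ), Q j n = cf (f l0 j) ((Ns : ℤ) - T l0 * (j : ℕ)) n := by
    intro j n
    rw [hQ]
    simp only
    unfold cf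
    by_cases h : T l0 * (j : ℕ) ≤ Ns
    · rw [if_pos h, if_pos (by
        have : ((T l0 * (j : ℕ) : ℕ) : ℤ) ≤ Ns := by exact_mod_cast h
        push_cast at this
        linarith)]
      congr 3
      have : ((Ns - T l0 * (j : ℕ) : ℕ) : ℤ) = (Ns : ℤ) - T l0 * (j : ℕ) := by
        push_cast [Nat.cast_sub h]
        ring
      rw [← this, Int.toNat_natCast]
    · rw [if_neg h, if_neg (by
        have : ((Ns : ℕ) : ℤ) < ((T l0 * (j : ℕ) : ℕ) : ℤ) := by exact_mod_cast (not_le.1 h)
        push_cast at this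
        linarith)]
      rfl
  classical
  set C : Finset (ℕ × ℤ) := Finset.univ.biUnion fun j : Fin (d / k + 1) =>
    (Q j).support.image fun n => ((j : ℕ), n) with hCdef
  let AA : ℕ × ℤ → F := fun q => if h : q.1 < d / k + 1 then Q ⟨q.1, h⟩ q.2 else 0
  have hAA : ∀ (j : Fin (d / k + 1)) (n : ℤ), AA ((j : ℕ), n) = Q j n := by
    intro j n
    simp only [AA]
    rw [dif_pos j.2]
  have hCS : C ⊆ S l0 := by
    intro q hq
    rw [hCdef, Finset.mem_biUnion] at hq
    obtain ⟨j, -, hq⟩ := hq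
    obtain ⟨n, hn, rfl⟩ := Finset.mem_image.1 hq
    rw [Finsupp.mem_support_iff, hQc j n] at hn
    refine hreg j _ n hn ?_
    rw [hz0, hNs']
    ring
  have hAA0 : ∀ q ∉ C, AA q = 0 := by
    intro q hq
    by_contra hcon
    apply hq
    by_cases hlt : q.1 < d / k + 1
    · rw [hCdef, Finset.mem_biUnion]
      refine ⟨⟨q.1, hlt⟩, Finset.mem_univ _, Finset.mem_image.2 ⟨q.2, ?_, rfl⟩⟩
      rw [Finsupp.mem_support_iff]
      simp only [AA] at hcon
      rw [dif_pos hlt] at hcon
      exact hcon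
    · exfalso
      apply hcon
      simp only [AA]
      rw [dif_neg hlt]
  have hindS := indF _ u w (S l0) (hind l0) AA (by
    intro i α β hαβ
    by_cases hi : g i = l0
    · simp only [if_pos hi] at hαβ
      have h1 := rel g (fun i => ((w i : ℚ) : F)) ux T B A hA δ v hv i α β hαβ
      rw [hi] at h1
      have h2 := relN ((w i : ℚ) : F) (ux i) (T l0) β α Ns (f l0) h1
      have h3 := toC Q ((w i : ℚ) : F) (by exact_mod_cast (hw i).ne') β
        (fun n => ((Ring.choose n α : ℤ) : F) * ((u i : ℚ) : F) ^ n) C hCdef AA hAA (by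
          rw [← h2]
          apply Finset.sum_congr rfl
          intro j _
          congr 1
          apply Finsupp.sum_congr
          intro n _
          rw [Units.val_zpow_eq_zpow_val, hux i]
          ring)
      rw [← h3]
      symm
      apply Finset.sum_subset hCS
      intro q _ hq
      rw [hAA0 q hq, zero_mul]
    · simp only [if_neg hi] at hαβ
      omega)
  have hmem : ((j0 : ℕ), n0) ∈ C := by
    rw [hCdef, Finset.mem_biUnion]
    refine ⟨j0, Finset.mem_univ _, Finset.mem_image.2 ⟨n0, ?_, rfl⟩⟩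
    rw [Finsupp.mem_support_iff, hQc j0 n0, hNs']
    have : N0 + T l0 * (j0 : ℕ) - T l0 * (j0 : ℕ) = N0 := by ring
    rw [this]
    exact hne0
  have hfin := hindS _ (hCS hmem)
  rw [hAA j0 n0, hQc j0 n0, hNs'] at hfin
  have : N0 + T l0 * (j0 : ℕ) - T l0 * (j0 : ℕ) = N0 := by ring
  rw [this] at hfin
  exact hne0 hfin

/-- POTR -/
theorem t : S_POTR := by
  intro F _ _ b c k d M g u w ux a a' T ν B S hk hc hu hw hux hpos hgr hZ hS hind
  classical
  -- the subspaces of the levels
  have hV : ∀ j : Fin (d / k + 1), ∃ V : Submodule (KK F) (Fin (ν j) → KK F),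
      (∑ l, ((S l).filter fun s => s.1 = (j : ℕ)).card) ≤ finrank (KK F) V ∧
      (¬ k * (j : ℕ) + k ≤ d + 2 → V = ⊥) ∧
      (k * (j : ℕ) + k ≤ d + 2 → ∃ Z : Finset (Fin c × ℤ),
      (∀ (l : Fin c) (n : ℤ), InR k d (a l) (a' l) (T l) j n → (l, n) ∈ Z) ∧
      (∀ v : Fin (ν j) → F, (∀ p ∈ Z, ∑ r : Fin (ν j), v r *
        ec (a p.1) (a' p.1) (B p.1 j r) p.2 = 0) → v = 0) ∧
      ∀ v ∈ V, ∀ p ∈ Z, ((j : ℕ), p.2) ∉ S p.1 →
        ∑ r : Fin (ν j), v r * algebraMap (OO F) (KK F) (ser (B p.1 j r) p.2) = 0) := by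
    intro j
    by_cases hj : k * (j : ℕ) + k ≤ d + 2
    · obtain ⟨Z, hZ1, hZ2, hZ3⟩ := hZ j hj
      obtain ⟨V, hV1, hV2⟩ := cut (K := KK F) (ν := ν j)
        (Z.filter fun p => ((j : ℕ), p.2) ∉ S p.1)
        (fun p => ∑ r : Fin (ν j), (algebraMap (OO F) (KK F) (ser (B p.1 j r) p.2)) •
          LinearMap.proj r)
      refine ⟨V, ?_, fun h => absurd hj h, fun _ => ⟨Z, hZ1, hZ3, ?_⟩⟩
      · have h1 := Finset.card_filter_add_card_filter_not (s := Z)
          (fun p => ((j : ℕ), p.2) ∈ S p.1)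
        have h2 : (∑ l, ((S l).filter fun s => s.1 = (j : ℕ)).card) ≤
            (Z.filter fun p => ((j : ℕ), p.2) ∈ S p.1).card := by
          rw [Finset.card_eq_sum_card_fiberwise (f := fun p : Fin c × ℤ => p.1)
            (t := Finset.univ) (fun _ _ => Finset.mem_coe.2 (Finset.mem_univ _))]
          apply Finset.sum_le_sum
          intro l _
          apply Finset.card_le_card_of_injOn (fun s => (l, s.2))
          · intro s hs
            have hs' := Finset.mem_filter.1 (Finset.mem_coe.1 hs)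
            have h3 := hS l s hs'.1
            rw [hs'.2] at h3
            have h4 : ((j : ℕ), s.2) ∈ S l := by
              rw [← hs'.2]
              exact hs'.1
            exact Finset.mem_coe.2 (Finset.mem_filter.2
              ⟨Finset.mem_filter.2 ⟨hZ1 l s.2 h3, h4⟩, rfl⟩)
          · intro s hs s' hs' hss
            have h3 := (Finset.mem_filter.1 (Finset.mem_coe.1 hs)).2
            have h4 := (Finset.mem_filter.1 (Finset.mem_coe.1 hs')).2
            exact Prod.ext (h3.trans h4.symm) (Prod.mk.inj hss).2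
        omega
      · intro v hv p hp hpS
        have h1 := hV2 v hv p (Finset.mem_filter.2 ⟨hp, hpS⟩)
        rw [← h1]
        simp only [LinearMap.coe_sum, Finset.sum_apply, LinearMap.smul_apply,
          LinearMap.proj_apply, smul_eq_mul]
        apply Finset.sum_congr rfl
        intro r _
        ring
    · refine ⟨⊥, ?_, fun _ => rfl, fun h => absurd h hj⟩
      rw [finrank_bot, Nat.le_zero]
      apply Finset.sum_eq_zero
      intro l _
      rw [Finset.card_eq_zero, Finset.filter_eq_empty_iff]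
      intro s hs hsj
      have := (hS l s hs).1
      rw [hsj] at this
      exact hj this
  choose V hV1 hV2 hV3 using hV
  obtain ⟨W, hW1, hW2⟩ := prodV ν V
  set Kr := KerV M (d / k + 1) ν
    (fun i => algebraMap (OO F) (KK F) (PowerSeries.C ((w i : ℚ) : F) * PowerSeries.X ^ T (g i)))
    (fun i j r => evK (ux i) (B (g i) j r)) with hKr
  have hdis : Disjoint Kr W := by
    rw [Submodule.disjoint_def]
    intro A hA hAW
    refine pot F b c k d M g u w ux a a' T ν B S hk hw hux hgr hS hind A hA ?_ ?_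
    · intro j hj
      have h1 := hW2 A hAW j
      rw [hV2 j hj] at h1
      exact (Submodule.mem_bot _).1 h1
    · intro j hj
      obtain ⟨Z, hZ1, hZ2, hZ3⟩ := hV3 j hj
      exact ⟨Z, hZ1, hZ2, fun p hp hpS => hZ3 (A j) (hW2 A hAW j) p hp hpS⟩
  have h1 := Submodule.finrank_add_finrank_le_of_disjoint hdis
  have h2 : finrank (KK F) (∀ j : Fin (d / k + 1), Fin (ν j) → KK F) =
      ∑ j ∈ Finset.range (d / k + 1), ν j := by
    rw [Module.finrank_pi_fintype, Finset.sum_range]
    simp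
  have h3 : ∑ l, (S l).card ≤ finrank (KK F) W := by
    rw [hW1]
    refine le_trans ?_ (Finset.sum_le_sum fun j _ => hV1 j)
    rw [Finset.sum_comm]
    apply Finset.sum_le_sum
    intro l _
    have h4 : (S l).card = ∑ j ∈ Finset.range (d / k + 1),
        ((S l).filter fun s => s.1 = j).card := by
      apply Finset.card_eq_sum_card_fiberwise
      intro s hs
      have h5 := (hS l s (Finset.mem_coe.1 hs)).1
      rw [Finset.coe_range, Set.mem_Iio]
      have h6 : s.1 ≤ d / k := by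
        rw [Nat.le_div_iff_mul_le (by omega)]
        have : s.1 * k = k * s.1 := mul_comm _ _
        omega
      omega
    rw [h4, Finset.sum_range]
  omega

end Pool.Agent.Helper79.T1.POTR
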