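import Pool.Agent.Helper1.T1.Goals4

/-!
PROJECT T1 (MP_d3128a_ag), the number of all the normal forms (helper79).
-/

set_option autoImplicit false

noncomputable section

namespace Pool.Agent.Helper79.T1.NFS

open Pool.Agent.Helper1.T1

theorem card_nf (k e : ℕ) : (nf k e).card = ∑ p ∈ Finset.range k, (e + 1 - p) := by
  unfold nf
  rw [Finset.card_eq_sum_card_fiberwise (f := fun p : ℕ × ℕ => p.1) (t := Finset.range k)
    (fun p hp => by
      have h := (Finset.mem_filter.1 (Finset.mem_coe.1 hp)).1
      exact Finset.mem_coe.2 (Finset.mem_product.1 h).1)]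
  apply Finset.sum_congr rfl
  intro p hp
  have h1 : (((Finset.range k ×ˢ Finset.range (e + 1)).filter fun p => p.1 + p.2 ≤ e).filter
      fun q => q.1 = p) = (Finset.range (e + 1 - p)).image fun r => (p, r) := by
    ext ⟨x, r⟩
    have hp' := Finset.mem_range.1 hp
    simp only [Finset.mem_filter, Finset.mem_product, Finset.mem_range, Finset.mem_image,
      Prod.mk.injEq]
    constructor
    · rintro ⟨⟨⟨h1, h2⟩, h3⟩, h4⟩
      exact ⟨r, by omega, h4.symm, rfl⟩
    · rintro ⟨r', h1, h2, h3⟩
      refine ⟨⟨⟨?_, ?_⟩, ?_⟩, ?_⟩ <;> omega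
  rw [h1, Finset.card_image_of_injective _ (fun x y hxy => (Prod.mk.inj hxy).2),
    Finset.card_range]

theorem tri (e : ℕ) : ∑ p ∈ Finset.range (e + 1), (e + 1 - p) = (e + 2).choose 2 := by
  induction e with
  | zero => simp
  | succ e ih =>
    rw [Finset.sum_range_succ']
    have h1 : ∑ p ∈ Finset.range (e + 1), (e + 1 + 1 - (p + 1)) =
        ∑ p ∈ Finset.range (e + 1), (e + 1 - p) := by
      apply Finset.sum_congr rfl
      intro p _
      omega
    have h2 : (e + 1 + 2).choose 2 = (e + 2).choose 1 + (e + 2).choose 2 :=
      Nat.choose_succ_succ' (e + 2) 1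
    rw [h1, ih, h2, Nat.choose_one_right]
    omega

/-- a longer range gives nothing new -/
theorem long (k e : ℕ) (h : e + 1 ≤ k) :
    ∑ p ∈ Finset.range k, (e + 1 - p) = (e + 2).choose 2 := by
  rw [← tri e]
  symm
  apply Finset.sum_subset (Finset.range_mono h)
  intro p _ hp
  have := Finset.mem_range.not.1 hp
  omega

/-- NFS -/
theorem t : S_NFS := by
  intro k d hk
  induction d using Nat.strong_induction_on with
  | _ d ih =>
    by_cases hd : d < k
    · rw [Nat.div_eq_of_lt hd, zero_add, Finset.sum_range_one, mul_zero, Nat.sub_zero, card_nf]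
      exact long k d (by omega)
    · have hd' : k ≤ d := by omega
      have h1 : d / k = (d - k) / k + 1 := by
        have h2 : d = (d - k) + k := by omega
        conv_lhs => rw [h2]
        exact Nat.add_div_right (d - k) (by omega)
      rw [h1, Finset.sum_range_succ']
      have h2 : ∑ j ∈ Finset.range ((d - k) / k + 1), (nf k (d - k * (j + 1))).card =
          (d - k + 2).choose 2 := by
        rw [← ih (d - k) (by omega)]
        apply Finset.sum_congr rfl
        intro j _
        have h3 : d - k * (j + 1) = d - k - k * j := by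
          rw [mul_add, mul_one]
          omega
        rw [h3]
      rw [h2, mul_zero, Nat.sub_zero, card_nf, ← tri d, ← tri (d - k)]
      have h4 : ∑ p ∈ Finset.range (d + 1), (d + 1 - p) =
          ∑ p ∈ Finset.range k, (d + 1 - p) +
            ∑ p ∈ Finset.range (d - k + 1), (d + 1 - (k + p)) := by
        have h5 : d + 1 = k + (d - k + 1) := by omega
        conv_lhs => rw [h5]
        rw [Finset.sum_range_add]
        rw [← h5]
      rw [h4, add_comm]
      congr 1
      apply Finset.sum_congr rfl
      intro p _
      omega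

end Pool.Agent.Helper79.T1.NFS
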